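import Pool.Agent.H20.QCat.Exist
import Pool.Agent.H20.QCat.Large
import Pool.Agent.H20.QCat.Kern

/-! The least integer `t` such that for all large `n` the coefficients
`m_n(t), ..., m_n(n(n-1)-t)` of the q-Catalan number `C_n(q)` are log-concave is `71`. -/

namespace Pool.Agent.Results.MP_532027_co.LeastT

open Pool.Agent.H20.QCat

lemma stable_ineq (k n : ℕ) (hk : 1 ≤ k) (hn : k + 1 ≤ n) (h : ac (k - 1) * ac (k + 1) ≤ ac k ^ 2) :
    (qCatalan n).coeff (k - 1) * (qCatalan n).coeff (k + 1) ≤ (qCatalan n).coeff k ^ 2 := by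
  rw [coeff_stab n (k - 1) (by omega) (by omega), coeff_stab n (k + 1) (by omega) (by omega),
    coeff_stab n k (by omega) (by omega)]
  exact h

lemma ac_all (k : ℕ) (hk : 72 ≤ k) : ac (k - 1) * ac (k + 1) ≤ ac k ^ 2 := by
  rcases Nat.lt_or_ge k 16450 with h | h
  · exact ac_small k hk (by omega)
  · exact ac_large k h

/-- The q-Catalan polynomials are characterised by
`[n+1] [n]! [n]! C_n(q) = [2n]!`, and `71` is the least integer `t` such that for all sufficiently
large `n` one has `m_n(k-1) m_n(k+1) ≤ m_n(k)^2` for all `k` with `t+1 ≤ k ≤ n(n-1)-t-1`. -/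
theorem result :
    (∀ n : ℕ, qCatalan n * (qnum (n + 1) * (qfact n * qfact n)) = qfact (2 * n)) ∧
    IsLeast {t : ℤ | ∃ n₀ : ℕ, ∀ n : ℕ, n₀ ≤ n → ∀ k : ℕ, 1 ≤ k → t + 1 ≤ k →
      (k : ℤ) ≤ n * (n - 1) - t - 1 →
      (qCatalan n).coeff (k - 1) * (qCatalan n).coeff (k + 1) ≤ (qCatalan n).coeff k ^ 2} 71 := by
  refine ⟨qCatalan_mul, ?_, ?_⟩
  · obtain ⟨K, n₀, hL⟩ := logconcave
    refine ⟨max n₀ (K + 2), ?_⟩
    intro n hn k hk1 hk2 hk3
    have hn0 : n₀ ≤ n := le_trans (le_max_left _ _) hn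
    have hnK : K + 2 ≤ n := le_trans (le_max_right _ _) hn
    have hkn : k + 72 ≤ n * (n - 1) := by
      have : ((n * (n - 1) : ℕ) : ℤ) = (n : ℤ) * (n - 1) := by
        rw [Nat.cast_mul, Nat.cast_sub (by omega)]; push_cast; ring
      have h5 : ((k + 72 : ℕ) : ℤ) ≤ ((n * (n - 1) : ℕ) : ℤ) := by
        rw [this]; push_cast; linarith
      exact_mod_cast h5
    have hk72 : 72 ≤ k := by omega
    rcases Nat.lt_or_ge k K with h1 | h1
    · exact stable_ineq k n (by omega) (by omega) (ac_all k hk72)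
    · rcases Nat.lt_or_ge (n * (n - 1)) (k + K) with h2 | h2
      · obtain ⟨j, hj⟩ : ∃ j, k + j = n * (n - 1) := ⟨n * (n - 1) - k, by omega⟩
        have h3 := stable_ineq j n (by omega) (by omega) (ac_all j (by omega))
        have e1 : (qCatalan n).coeff (j - 1) = (qCatalan n).coeff (k + 1) := by
          rw [← qCatalan_coeff_symm n (j - 1) (by omega)]; congr 1; omega
        have e2 : (qCatalan n).coeff (j + 1) = (qCatalan n).coeff (k - 1) := by
          rw [← qCatalan_coeff_symm n (j + 1) (by omega)]; congr 1; omega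
        have e3 : (qCatalan n).coeff j = (qCatalan n).coeff k := by
          rw [← qCatalan_coeff_symm n j (by omega)]; congr 1; omega
        rw [e1, e2, e3, mul_comm] at h3
        exact h3
      · exact hL n hn0 k h1 h2
  · intro t ht
    obtain ⟨n₀, h⟩ := ht
    by_contra hlt
    have ht70 : t ≤ 70 := by omega
    set n := max n₀ 100 with hn
    have hn0 : n₀ ≤ n := le_max_left _ _
    have hn1 : 100 ≤ n := le_max_right _ _
    have h1 := h n hn0 71 (by norm_num) (by push_cast; linarith) (by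
      have : (100 : ℤ) ≤ n := by exact_mod_cast hn1
      push_cast
      nlinarith)
    have e : (71 : ℕ) - 1 = 70 := by norm_num
    have e' : (71 : ℕ) + 1 = 72 := by norm_num
    rw [e, e', coeff_stab n 70 (by omega) (by omega), coeff_stab n 72 (by omega) (by omega),
      coeff_stab n 71 (by omega) (by omega)] at h1
    exact absurd h1 (not_le.2 ac_fail)

end Pool.Agent.Results.MP_532027_co.LeastT
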